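import Pool.Agent.Lib.MP_42532b_al.BettiEq

/-!
# A torsion group with positive first L²-Betti number and no proper subgroup of finite index

Negative answer to the question whether a group with positive first L²-Betti number always has an
infinite amenable subgroup or a finite index subgroup `G₁` with `β₁(G) ≥ 1 / [G : G₁]`.
-/

namespace Pool.Agent.Results.MP_42532b_al.TorsionGroup

open Pool.Agent.Lib.MP_42532b_al

theorem surj_of_closure {G : Type} [Group G] {d : ℕ} (s : Fin d → G)
    (hs : Subgroup.closure (Set.range s) = ⊤) : Function.Surjective (FreeGroup.lift s) := by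
  rw [← MonoidHom.range_eq_top, FreeGroup.range_lift_eq_closure, hs]

/-- There is a group `G` generated by two elements, all of whose elements have finite order, all of
whose amenable subgroups are finite, which has no proper subgroup of finite index and whose first
L²-Betti number is positive and smaller than `1 / [G : G₁]` for every subgroup `G₁` of finite
index. -/
theorem result :
    ∃ (G : Type) (_ : Group G),
      (∃ a b : G, Subgroup.closure {a, b} = ⊤) ∧
      (∀ g : G, IsOfFinOrder g) ∧
      (∀ H : Subgroup G, IsAmenable H → Finite H) ∧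
      (∀ H : Subgroup G, H.FiniteIndex → H = ⊤) ∧
      ∀ (d : ℕ) (s : Fin d → G), Subgroup.closure (Set.range s) = ⊤ →
        0 < bettiOne s ∧
          ∀ G₁ : Subgroup G, G₁.FiniteIndex → bettiOne s < 1 / (G₁.index : ℝ) := by
  obtain ⟨G, inst, t, ht, htor, hidx, ham, hpos, hlt⟩ := L2B.main_group
  refine ⟨G, inst, ⟨t 0, t 1, ?_⟩, ?_, fun H hH => ham H hH, fun H hH => hidx H hH.index_ne_zero,
    ?_⟩
  · have h1 : Subgroup.closure (Set.range t) = ⊤ := by
      rw [← FreeGroup.range_lift_eq_closure, MonoidHom.range_eq_top]
      exact ht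
    rw [← h1]
    congr 1
    ext x
    constructor
    · rintro (rfl | rfl)
      · exact ⟨0, rfl⟩
      · exact ⟨1, rfl⟩
    · rintro ⟨i, rfl⟩
      fin_cases i
      · exact Or.inl rfl
      · exact Or.inr rfl
  · intro g
    obtain ⟨m, hm, hg⟩ := htor g
    exact isOfFinOrder_iff_pow_eq_one.2 ⟨m, hm, hg⟩
  · intro d s hs
    have hs' := surj_of_closure s hs
    have hb : bettiOne s = MP42532b.L2.beta t := by
      rw [bettiOne_eq_beta s hs', MP42532b.L2.beta_eq_beta s t hs' ht]
    rw [hb]
    refine ⟨hpos, fun G₁ hG₁ => ?_⟩
    rw [hidx G₁ hG₁.index_ne_zero, Subgroup.index_top]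
    simpa using hlt

end Pool.Agent.Results.MP_42532b_al.TorsionGroup
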